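import Pool.Agent.H602Z.NHTilt

set_option autoImplicit false
set_option linter.unusedSectionVars false
set_option linter.unusedVariables false

namespace Pool.Agent.H602Z.NH

open Matrix Finset
open scoped MatrixOrder ComplexOrder
open Pool.Agent.H304Z.NH

variable {n : Type} [Fintype n] [DecidableEq n]

lemma nsq_sub_le_cut {U a : Mat n} (hU : IsProj U) (hUa : U * a = a * U) (ha : 0 ≤ a)
    (ha1 : a ≤ 1) {σ : ℝ} (hσ : 0 < σ) (hσ1 : σ ≤ 1 / 100) (h1 : (1 - 2 * σ) • U ≤ a)
    (h2 : (1 - U) * a * (1 - U) ≤ (1 - σ) • (1 - U)) :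
    σ * nsq (U - a) ≤ tr a - nsq a := by
  have hV := proj_compl hU
  have hVa : (1 - U) * a = a * (1 - U) := by
    simp [Matrix.sub_mul, Matrix.mul_sub, hUa]
  have a1 : U * a * U = U * a := by rw [Matrix.mul_assoc, ← hUa, ← Matrix.mul_assoc, hU.2]
  have a2 : (1 - U) * a * (1 - U) = a - U * a := by
    rw [Matrix.mul_assoc, ← hVa, ← Matrix.mul_assoc, hV.2, Matrix.sub_mul, Matrix.one_mul]
  have b1 : (1 - 2 * σ) • U ≤ U * a := by
    have := conj_mono h1 U
    rwa [hU.1, a1, Matrix.mul_smul, Matrix.smul_mul, hU.2, hU.2] at this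
  have b0 : 0 ≤ U * a := by
    have := conj_nonneg ha U
    rwa [hU.1, a1] at this
  have b3 : a - U * a ≤ 1 - U := by
    have := conj_mono ha1 (1 - U)
    rwa [hV.1, a2, Matrix.mul_one, hV.2] at this
  rw [a2] at h2
  have M1 : 0 ≤ U * a - σ • (U - U * a) := by
    have e : U * a - σ • (U - U * a) =
        (U * a - (1 - 2 * σ) • U) + (1 - 3 * σ) • U + σ • (U * a) := by
      module
    rw [e]
    exact add_nonneg (add_nonneg (sub_nonneg.mpr b1)
      (smul_nn (proj_nonneg hU) (by linarith))) (smul_nn b0 hσ.le)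
  have M2 : 0 ≤ (1 - U) - (a - U * a) - σ • (a - U * a) := by
    have e : (1 - U) - (a - U * a) - σ • (a - U * a) =
        ((1 - σ) • (1 - U) - (a - U * a)) + σ • ((1 - U) - (a - U * a)) := by
      module
    rw [e]
    exact add_nonneg (sub_nonneg.mpr h2) (smul_nn (sub_nonneg.mpr b3) hσ.le)
  have t1 := tr_mul_nonneg M1 (sub_nonneg.mpr ha1)
  have t2 := tr_mul_nonneg M2 ha
  simp only [Matrix.sub_mul, Matrix.mul_sub, Matrix.smul_mul, Matrix.mul_one, Matrix.one_mul,
    tr_sub, tr_smul] at t1 t2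
  rw [nsq_sub, nsq_proj hU, hU.1]
  have e : nsq a = tr (a * a) := by simp only [nsq, herm_of_nonneg ha]
  rw [e]
  nlinarith

lemma av_nonneg {G I : Type} [Fintype I] (u : G → Mat n) (γ : I → G) {y : Mat n} (hy : 0 ≤ y) :
    0 ≤ av u γ y :=
  smul_nn (Finset.sum_nonneg fun i _ => conj_nonneg' hy _) (by positivity)

lemma av_le_one {G I : Type} [Fintype I] [Nonempty I] (u : G → Mat n) (hu : ∀ g, IsU (u g))
    (γ : I → G) {y : Mat n} (hy : y ≤ 1) : av u γ y ≤ 1 := by
  have h1 : ∑ i, u (γ i) * y * (u (γ i))ᴴ ≤ ∑ _i : I, (1 : Mat n) := by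
    apply Finset.sum_le_sum
    intro i _
    have := conj_mono' hy (u (γ i))
    rwa [Matrix.mul_one, (hu _).2] at this
  have h2 := smul_mono h1 (r := (Fintype.card I : ℝ)⁻¹) (by positivity)
  have hc : (Fintype.card I : ℝ) ≠ 0 := by
    have := Fintype.card_pos (α := I)
    positivity
  have h3 : (Fintype.card I : ℝ)⁻¹ • ∑ _i : I, (1 : Mat n) = 1 := by
    rw [Finset.sum_const, Finset.card_univ, ← Nat.cast_smul_eq_nsmul ℝ, smul_smul,
      inv_mul_cancel₀ hc, one_smul]
  rw [h3] at h2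
  exact h2

lemma tr_av {G I : Type} [Fintype I] [Nonempty I] (u : G → Mat n) (hu : ∀ g, IsU (u g))
    (γ : I → G) (y : Mat n) : tr (av u γ y) = tr y := by
  have hc : (Fintype.card I : ℝ) ≠ 0 := by
    have := Fintype.card_pos (α := I)
    positivity
  have h : ∀ i, tr (u (γ i) * y * (u (γ i))ᴴ) = tr y := by
    intro i
    rw [tr_comm, ← Matrix.mul_assoc, (hu _).1, Matrix.one_mul]
  simp only [av, tr_smul, tr_sum, h, Finset.sum_const, Finset.card_univ, nsmul_eq_mul]
  field_simp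

theorem imp (hTH : S_TH) (hGM : S_GM) : Pool.Agent.H304Z.NH.S_IMP := by
  intro G _ S hK σ ν hσ hσ1 hν
  obtain ⟨K, hK0, hK⟩ := hGM G S hK
  set t : ℝ := σ * ν / 8 with ht
  have htpos : 0 < t := by positivity
  set ζ : ℝ := min (ν / 4) (t / (1 + t⁻¹)) with hζ
  have hζpos : 0 < ζ := lt_min (by positivity) (by positivity)
  have hζ1 : ζ ≤ ν / 4 := min_le_left _ _
  have hζ2 : (1 + t⁻¹) * ζ ≤ t := by
    have h : ζ ≤ t / (1 + t⁻¹) := min_le_right _ _
    rw [le_div_iff₀ (by positivity)] at h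
    linarith
  refine ⟨ζ / (2 * (K + 1)), by positivity, ?_⟩
  intro η hη
  obtain ⟨N, hN⟩ := exists_nat_gt (4 * (S.card : ℝ) / η + 1)
  have hc : (0 : ℝ) ≤ 4 * (S.card : ℝ) / η := by positivity
  have hNpos : (0 : ℝ) < N := by linarith
  have hN0 : 0 < N := by exact_mod_cast hNpos
  set η' : ℝ := min (ζ / 2) (η / 2 / (2 * N / σ) ^ 2) with hη'
  have hη'pos : 0 < η' := lt_min (by positivity) (by positivity)
  have hη'1 : η' ≤ ζ / 2 := min_le_left _ _
  have hη'2 : (2 * N / σ) ^ 2 * η' ≤ η / 2 := by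
    have h : η' ≤ η / 2 / (2 * N / σ) ^ 2 := min_le_right _ _
    rw [le_div_iff₀ (by positivity)] at h
    linarith
  obtain ⟨I, hI, hIn, γ, W, δ, hδ, hG⟩ := hK η' hη'pos
  refine ⟨I, hI, hIn, γ, W, δ, hδ, ?_⟩
  intro n _ _ u hu hu1 q hq hdf hen
  have hq0 := proj_nonneg hq
  have htq : 0 ≤ tr q := tr_nonneg hq0
  rcases htq.eq_or_lt with h0 | hpos
  · refine ⟨0, ⟨by simp, by simp⟩, ?_, ?_, ?_⟩
    · rw [smul_zero]
      exact av_nonneg u γ hq0
    · rw [← h0]
      simp [en, cm, nsq, tr]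
    · rw [zero_sub, nsq_neg, nsq_proj hq, ← h0]
      simp
  have hGq := hG n u hu hu1 Unit (fun _ => q) (tr q) hpos
    (by simp [nsq_proj hq]) (by
      intro g hg h hh
      have e : nsq (q * (df u g h)ᴴ) = nsq (df u g h * q) := by
        rw [← nsq_conj, conjTranspose_mul, conjTranspose_conjTranspose, hq.1]
      simp only [Finset.univ_unique, Finset.sum_singleton, e]
      exact ⟨hdf g hg h hh, hdf g hg h hh⟩)
  simp only [Finset.univ_unique, Finset.sum_singleton] at hGq
  obtain ⟨hG1, hG2⟩ := hGq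
  have ha0 : 0 ≤ av u γ q := av_nonneg u γ hq0
  have ha1 : av u γ q ≤ 1 := av_le_one u hu γ (proj_le_one hq)
  have hta : tr (av u γ q) = tr q := tr_av u hu γ q
  generalize av u γ q = a at *
  obtain ⟨U, hU, hUa, hle, hco, hUe⟩ := th_en hTH S u hu a ha0 (1 - 2 * σ) (1 - σ)
    (by linarith) (by linarith) N hN0
  have hqa : nsq (q - a) ≤ ζ * tr q := by
    have h1 : K * en u S q ≤ K * (ζ / (2 * (K + 1)) * tr q) :=
      mul_le_mul_of_nonneg_left hen hK0
    have h2 : K * (ζ / (2 * (K + 1))) ≤ ζ / 2 := by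
      rw [← mul_div_assoc, div_le_div_iff₀ (by positivity) (by positivity)]
      nlinarith
    have h3 := mul_le_mul_of_nonneg_right h2 htq
    have h4 := mul_le_mul_of_nonneg_right hη'1 htq
    rw [mul_assoc] at h3
    linarith
  refine ⟨U, hU, hle, ?_, ?_⟩
  · have e0 : (1 - σ) - (1 - 2 * σ) = σ := by ring
    rw [e0, hta] at hUe
    have e1 : (2 * N / σ) ^ 2 * en u S a ≤ η / 2 * tr q := by
      have h1 := mul_le_mul_of_nonneg_left hG1 (show 0 ≤ (2 * N / σ) ^ 2 by positivity)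
      have h2 := mul_le_mul_of_nonneg_right hη'2 htq
      rw [mul_assoc] at h2
      linarith
    have e2 : (S.card : ℝ) * tr q / ((1 - 2 * σ) * N) ≤ η / 2 * tr q := by
      have hp : 0 < (1 - 2 * σ) * N := mul_pos (by linarith) hNpos
      rw [div_le_iff₀ hp]
      have h1 : 4 * (S.card : ℝ) ≤ η * N := by
        have : 4 * (S.card : ℝ) / η ≤ N := by linarith
        rw [div_le_iff₀ hη] at this
        linarith
      have h2 : (1 / 2 : ℝ) * N ≤ (1 - 2 * σ) * N :=
        mul_le_mul_of_nonneg_right (by linarith) hNpos.le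
      have h3 := mul_le_mul_of_nonneg_right h1 htq
      have h4 := mul_le_mul_of_nonneg_left h2 (show 0 ≤ η / 2 * tr q by positivity)
      nlinarith
    linarith
  · have c1 := nsq_sub_le_cut hU hUa ha0 ha1 hσ hσ1 hle hco
    have c2 : nsq a ≤ tr q := by
      have h := tr_mul_mono ha0 ha1
      rw [Matrix.mul_one, hta] at h
      simpa only [nsq, herm_of_nonneg ha0] using h
    have c3 := nsq_add_le a (q - a) htpos
    rw [add_sub_cancel, nsq_proj hq] at c3
    have c4 : (1 + t⁻¹) * nsq (q - a) ≤ t * tr q := by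
      have h1 := mul_le_mul_of_nonneg_left hqa (show 0 ≤ 1 + t⁻¹ by positivity)
      have h2 := mul_le_mul_of_nonneg_right hζ2 htq
      rw [mul_assoc] at h2
      linarith
    have c5 : σ * nsq (U - a) ≤ σ * (ν / 4 * tr q) := by
      have h1 := mul_le_mul_of_nonneg_left c2 htpos.le
      have e : σ * (ν / 4 * tr q) = 2 * (t * tr q) := by rw [ht]; ring
      rw [e]
      have h2 : (1 + t) * nsq a = nsq a + t * nsq a := by ring
      linarith
    have c6 : nsq (U - a) ≤ ν / 4 * tr q := le_of_mul_le_mul_left c5 hσ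
    have c7 := nsq_add_le2 (U - a) (a - q)
    rw [sub_add_sub_cancel, nsq_sub_comm a q] at c7
    have c8 := mul_le_mul_of_nonneg_right hζ1 htq
    linarith

end Pool.Agent.H602Z.NH
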