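import Pool.Agent.H602Z.NHBase

set_option autoImplicit false
set_option linter.unusedSectionVars false
set_option linter.unusedVariables false

namespace Pool.Agent.H602Z.NH

open Matrix Finset
open scoped MatrixOrder ComplexOrder
open Pool.Agent.H304Z.NH

variable {n : Type} [Fintype n] [DecidableEq n]

lemma nsq_cm_mul_star {u : Mat n} (hu : IsU u) {z : Mat n} (hz : z * zᴴ ≤ 1) :
    nsq (cm u (z * zᴴ)) ≤ 4 * nsq (cm u z) := by
  have h : cm u (z * zᴴ) = cm u z * zᴴ + z * cm u zᴴ := by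
    simp only [cm, Matrix.sub_mul, Matrix.mul_sub, Matrix.mul_assoc]
    abel
  have hz' := star_mul_le_one hz
  have h1 : nsq (cm u z * zᴴ) ≤ nsq (cm u z) := by
    apply nsq_mul_le_right
    simpa using hz'
  have h2 : nsq (z * cm u zᴴ) ≤ nsq (cm u z) :=
    (nsq_mul_le_left _ hz').trans (nsq_cm_star hu z)
  rw [h]
  have := nsq_add_le2 (cm u z * zᴴ) (z * cm u zᴴ)
  linarith

lemma en_nonneg {G : Type} (u : G → Mat n) (S : Finset G) (y : Mat n) : 0 ≤ en u S y :=
  Finset.sum_nonneg fun _ _ => nsq_nonneg _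

/-- the spectral cut for a finite set of group elements -/
lemma th_en (hTH : S_TH) {G : Type} (S : Finset G) (u : G → Mat n) (hu : ∀ g, IsU (u g))
    (x : Mat n) (hx : 0 ≤ x) (a b : ℝ) (ha : 0 < a) (hab : a < b) (N : ℕ) (hN : 0 < N) :
    ∃ p : Mat n, IsProj p ∧ p * x = x * p ∧ a • p ≤ x ∧
      (1 - p) * x * (1 - p) ≤ b • (1 - p) ∧
      en u S p ≤ (2 * N / (b - a)) ^ 2 * en u S x + S.card * tr x / (a * N) := by
  obtain ⟨p, h1, h2, h3, h4, h5⟩ := hTH n {s // s ∈ S} (fun s => u s.1) (fun s => hu s.1) x hx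
    a b ha hab N hN
  refine ⟨p, h1, h2, h3, h4, ?_⟩
  rw [Finset.sum_coe_sort S (fun s => nsq (cm (u s) p)),
    Finset.sum_coe_sort S (fun s => nsq (cm (u s) x)), Fintype.card_coe] at h5
  exact h5

lemma tr_sq_le {p x : Mat n} (hp : IsProj p) (hpx : p * x = x * p) (hx : 0 ≤ x) (hx1 : x ≤ 1)
    {b : ℝ} (hb : 0 ≤ b) (h : (1 - p) * x * (1 - p) ≤ b • (1 - p)) :
    tr (x * x) ≤ tr p + b * tr x := by
  have hq := proj_compl hp
  have hqx : (1 - p) * x = x * (1 - p) := by
    simp [Matrix.sub_mul, Matrix.mul_sub, hpx]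
  have e1 : x * x = p * x * p * x + (1 - p) * x * (1 - p) * x := by
    have a1 : p * x * p = p * x := by rw [Matrix.mul_assoc, ← hpx, ← Matrix.mul_assoc, hp.2]
    have a2 : (1 - p) * x * (1 - p) = (1 - p) * x := by
      rw [Matrix.mul_assoc, ← hqx, ← Matrix.mul_assoc, hq.2]
    rw [a1, a2, ← Matrix.add_mul, ← Matrix.add_mul]
    simp
  have hpxp : 0 ≤ p * x * p := by
    have := conj_nonneg hx p
    rwa [hp.1] at this
  have b1 : tr (p * x * p * x) ≤ tr p := by
    have c1 := tr_mul_mono hpxp hx1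
    have c2 : p * x * p ≤ p := by
      have := conj_mono hx1 p
      rwa [hp.1, Matrix.mul_one, hp.2] at this
    rw [Matrix.mul_one] at c1
    exact c1.trans (tr_mono c2)
  have b2 : tr ((1 - p) * x * (1 - p) * x) ≤ b * tr x := by
    rw [tr_comm]
    have c1 := tr_mul_mono hx h
    have c2 : tr (x * b • (1 - p)) ≤ b * tr x := by
      rw [Matrix.mul_smul, tr_smul]
      apply mul_le_mul_of_nonneg_left _ hb
      have := tr_mul_mono hx (proj_le_one hq)
      rwa [Matrix.mul_one] at this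
    exact c1.trans c2
  rw [e1, tr_add]
  linarith

theorem tilt (hTH : S_TH) : Pool.Agent.H304Z.NH.S_TILT := by
  intro G S γ hγ
  obtain ⟨N, hN⟩ := exists_nat_gt (50 * (S.card : ℝ) / γ + 1)
  have hc : (0 : ℝ) ≤ 50 * (S.card : ℝ) / γ := by positivity
  have hNpos : (0 : ℝ) < N := by linarith
  have hN0 : 0 < N := by exact_mod_cast hNpos
  refine ⟨γ / (40 * 1600 * N ^ 2), by positivity, ?_⟩
  intro n _ _ u hu V z hV hzV hz1 hzn hen
  have hx : 0 ≤ z * zᴴ := mul_star_nonneg z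
  obtain ⟨p, hp, hpx, hle, hco, hpe⟩ := th_en hTH S u hu (z * zᴴ) hx (4 / 5) (9 / 10)
    (by norm_num) (by norm_num) N hN0
  have hz' := star_mul_le_one hz1
  have hVz : V * zᴴ = zᴴ := by
    have := congrArg conjTranspose hzV
    rwa [conjTranspose_mul, hV.1] at this
  have htrV : 0 ≤ tr V := tr_nonneg (proj_nonneg hV)
  have htx : tr (z * zᴴ) = nsq z := tr_comm _ _
  have hzV' : nsq z ≤ tr V := by
    have h1 := conj_mono hz' V
    have h2 : Vᴴ * (zᴴ * z) * V = zᴴ * z := by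
      rw [hV.1, ← Matrix.mul_assoc, hVz, Matrix.mul_assoc, hzV]
    rw [h2, hV.1, Matrix.mul_one, hV.2] at h1
    exact tr_mono h1
  have hsq : 2 * nsq z - tr V ≤ tr (z * zᴴ * (z * zᴴ)) := by
    have h1 := nsq_nonneg (V - zᴴ * z)
    rw [nsq_sub, nsq_proj hV, hV.1, ← Matrix.mul_assoc, hVz] at h1
    have h2 : nsq (zᴴ * z) = tr (z * zᴴ * (z * zᴴ)) := by
      simp only [nsq, conjTranspose_mul, conjTranspose_conjTranspose]
      rw [Matrix.mul_assoc, tr_comm]
      simp only [Matrix.mul_assoc]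
    rw [h2] at h1
    change 0 ≤ tr V + _ - 2 * nsq z at h1
    linarith
  have hsq2 := tr_sq_le hp hpx hx hz1 (by norm_num) hco
  have htp : tr V / 20 ≤ tr p := by
    rw [htx] at hsq2
    linarith
  refine ⟨p, hp, hle, htp, ?_⟩
  have hex : en u S (z * zᴴ) ≤ 4 * en u S z := by
    simp only [en]
    rw [Finset.mul_sum]
    exact Finset.sum_le_sum fun s _ => nsq_cm_mul_star (hu s) hz1
  have e1 : (2 * N / (9 / 10 - 4 / 5 : ℝ)) ^ 2 * en u S (z * zᴴ) ≤ γ / 40 * tr V := by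
    have : (2 * N / (9 / 10 - 4 / 5 : ℝ)) ^ 2 = 400 * N ^ 2 := by ring
    rw [this]
    calc 400 * (N : ℝ) ^ 2 * en u S (z * zᴴ)
        ≤ 400 * (N : ℝ) ^ 2 * (4 * (γ / (40 * 1600 * N ^ 2) * tr V)) := by
          apply mul_le_mul_of_nonneg_left _ (by positivity)
          linarith
      _ = γ / 40 * tr V := by field_simp; ring
  have e2 : (S.card : ℝ) * tr (z * zᴴ) / (4 / 5 * N) ≤ γ / 40 * tr V := by
    rw [htx, div_le_iff₀ (by positivity)]
    have h1 : 50 * (S.card : ℝ) ≤ γ * N := by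
      have : 50 * (S.card : ℝ) / γ ≤ N := by linarith
      rw [div_le_iff₀ hγ] at this
      linarith
    have h2 : (S.card : ℝ) * nsq z ≤ S.card * tr V :=
      mul_le_mul_of_nonneg_left hzV' (by positivity)
    have h3 : 50 * (S.card : ℝ) * tr V ≤ γ * N * tr V := mul_le_mul_of_nonneg_right h1 htrV
    nlinarith
  have e3 : γ / 20 * tr V ≤ γ * tr p := by
    have := mul_le_mul_of_nonneg_left htp hγ.le
    linarith
  linarith

end Pool.Agent.H602Z.NH
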