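import Mathlib

set_option autoImplicit false

namespace Pool.Agent.H602Z.PRank

open Subgroup

/-- a chain argument: few extra generators above a subgroup of small index of a `p`-group -/
theorem chain {p : ℕ} [hp : Fact p.Prime] {Q : Type*} [Group Q] [Finite Q] (hQ : IsPGroup p Q)
    (s : ℕ) (K : Subgroup Q) (h : Nat.card Q ≤ p ^ s * Nat.card K) :
    ∃ S : Finset Q, S.card ≤ s ∧ closure (S : Set Q) ⊔ K = ⊤ := by
  classical
  induction s generalizing K with
  | zero =>
    refine ⟨∅, le_rfl, ?_⟩
    rw [pow_zero, one_mul] at h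
    have : K = ⊤ := Subgroup.eq_top_of_le_card K h
    rw [this]; simp
  | succ s ih =>
    by_cases hK : K = ⊤
    · exact ⟨∅, Nat.zero_le _, by rw [hK]; simp⟩
    · obtain ⟨g, hg⟩ : ∃ g, g ∉ K := by
        by_contra hcon
        push Not at hcon
        exact hK (by rw [eq_top_iff]; intro g _; exact hcon g)
      set K' := closure ({g} : Set Q) ⊔ K with hK'
      have hle : K ≤ K' := le_sup_right
      have hgK' : g ∈ K' := (le_sup_left : closure ({g} : Set Q) ≤ K') (subset_closure rfl)
      obtain ⟨a, ha⟩ := (IsPGroup.iff_card (p := p)).1 (hQ.to_subgroup K)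
      obtain ⟨b, hb⟩ := (IsPGroup.iff_card (p := p)).1 (hQ.to_subgroup K')
      have hlt : Nat.card K < Nat.card K' := by
        rcases (Subgroup.card_le_of_le hle).lt_or_eq with h1 | h1
        · exact h1
        · exfalso
          have := Subgroup.eq_of_le_of_card_ge hle h1.ge
          exact hg (this ▸ hgK')
      have hab : a < b := by
        rw [ha, hb] at hlt
        exact (Nat.pow_lt_pow_iff_right hp.out.one_lt).1 hlt
      have h2 : p * Nat.card K ≤ Nat.card K' := by
        rw [ha, hb, ← pow_succ']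
        exact Nat.pow_le_pow_right hp.out.pos hab
      obtain ⟨S, hS, hS'⟩ := ih K' (by
        calc Nat.card Q ≤ p ^ (s + 1) * Nat.card K := h
          _ = p ^ s * (p * Nat.card K) := by ring
          _ ≤ p ^ s * Nat.card K' := Nat.mul_le_mul_left _ h2)
      refine ⟨insert g S, (Finset.card_insert_le _ _).trans (by omega), ?_⟩
      rw [eq_top_iff, ← hS', hK', Finset.coe_insert, Set.insert_eq, Subgroup.closure_union]
      apply sup_le
      · exact le_sup_of_le_left le_sup_right
      · apply sup_le
        · exact le_sup_of_le_left le_sup_left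
        · exact le_sup_right

/-- `p`-th powers lie in every maximal subgroup of a finite `p`-group -/
theorem pow_mem_coatom {p : ℕ} [hp : Fact p.Prime] {Q : Type*} [Group Q] [Finite Q]
    (hQ : IsPGroup p Q) {M : Subgroup Q} (hM : IsCoatom M) (h : Q) : h ^ p ∈ M := by
  have := hQ.isNilpotent
  have hN : M.Normal :=
    Subgroup.NormalizerCondition.normal_of_coatom M Group.normalizerCondition_of_isNilpotent hM
  by_contra hcon
  have hlt : M < zpowers (h ^ p) ⊔ M := by
    refine lt_of_le_of_ne le_sup_right (fun he => hcon ?_)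
    rw [he]
    exact (le_sup_left : zpowers (h ^ p) ≤ _) (mem_zpowers _)
  have htop := hM.2 _ hlt
  have hh : h ∈ zpowers (h ^ p) ⊔ M := by rw [htop]; trivial
  rw [← SetLike.mem_coe, Subgroup.mul_normal] at hh
  obtain ⟨a, ha, m, hm, hm'⟩ := hh
  obtain ⟨k, rfl⟩ := mem_zpowers_iff.1 ha
  -- in the quotient, `h = h ^ (p k)`
  let π := QuotientGroup.mk' M
  have h1 : π h = (π h ^ p) ^ k := by
    conv_lhs => rw [← hm']
    have : π m = 1 := (QuotientGroup.eq_one_iff m).2 hm
    simp only [map_mul, map_zpow, map_pow, this, mul_one]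
  have h2 : ∀ j : ℕ, π h = (π h ^ p ^ j) ^ (k ^ j) := by
    intro j
    induction j with
    | zero => simp
    | succ j ih =>
      have : (π h ^ p ^ (j + 1)) ^ (k ^ (j + 1)) = (((π h ^ p ^ j) ^ (k ^ j)) ^ p) ^ k := by
        rw [← zpow_natCast, ← zpow_natCast, ← zpow_natCast, ← zpow_mul, ← zpow_mul, ← zpow_mul,
          ← zpow_mul]
        congr 1
        push_cast
        ring
      rw [this, ← ih, ← h1]
  obtain ⟨j, hj⟩ := hQ h
  have h3 : π h = 1 := by
    rw [h2 j, ← map_pow, hj, map_one, one_zpow]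
  have h4 : h ∈ M := (QuotientGroup.eq_one_iff h).1 h3
  exact hcon (M.pow_mem h4 p)

theorem pow_mem_frattini {p : ℕ} [hp : Fact p.Prime] {Q : Type*} [Group Q] [Finite Q]
    (hQ : IsPGroup p Q) (h : Q) : h ^ p ∈ frattini Q := by
  unfold frattini Order.radical
  simp only [Subgroup.mem_iInf]
  intro M hM
  exact pow_mem_coatom hQ hM h

/-- small fibres of the `p`-th power map give few generators -/
theorem gen_of_fibres {p : ℕ} [hp : Fact p.Prime] {Q : Type*} [Group Q] [Finite Q]
    (hQ : IsPGroup p Q) (s : ℕ) (h : ∀ y : Q, Nat.card {g : Q // g ^ p = y} ≤ p ^ s) :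
    ∃ S : Finset Q, S.card ≤ s ∧ closure (S : Set Q) = ⊤ := by
  classical
  have : Fintype Q := Fintype.ofFinite Q
  have h1 : Nat.card Q ≤ p ^ s * Nat.card (frattini Q) := by
    let T : Finset Q := Finset.univ.filter fun g => g ∈ frattini Q
    have hT : T.card = Nat.card (frattini Q) := by
      rw [Nat.card_eq_fintype_card, Fintype.card_subtype]
    have := Finset.card_le_mul_card_image_of_maps_to (s := (Finset.univ : Finset Q)) (t := T)
      (f := fun g => g ^ p) (fun g _ => by
        simp only [T, Finset.mem_filter, Finset.mem_univ, true_and]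
        exact pow_mem_frattini hQ g) (p ^ s) (fun y _ => by
        have := h y
        rwa [Nat.card_eq_fintype_card, Fintype.card_subtype] at this)
    rwa [Finset.card_univ, hT, ← Nat.card_eq_fintype_card] at this
  obtain ⟨S, hS, hS'⟩ := chain hQ s _ h1
  exact ⟨S, hS, frattini_nongenerating hS'⟩

/-- telescoping in a ring -/
theorem pow_sub_pow_eq {R : Type*} [Ring R] (a b : R) (n : ℕ) :
    a ^ n - b ^ n = ∑ j ∈ Finset.range n, a ^ j * (a - b) * b ^ (n - 1 - j) := by
  induction n with
  | zero => simp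
  | succ n ih =>
    rw [Finset.sum_range_succ]
    have : ∑ j ∈ Finset.range n, a ^ j * (a - b) * b ^ (n + 1 - 1 - j)
        = (∑ j ∈ Finset.range n, a ^ j * (a - b) * b ^ (n - 1 - j)) * b := by
      rw [Finset.sum_mul]
      apply Finset.sum_congr rfl
      intro j hj
      rw [Finset.mem_range] at hj
      have : n + 1 - 1 - j = (n - 1 - j) + 1 := by omega
      rw [this, pow_succ, ← mul_assoc]
    rw [this, ← ih]
    have h0 : n + 1 - 1 - n = 0 := by omega
    rw [h0, pow_zero, mul_one, pow_succ, pow_succ]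
    noncomm_ring

theorem one_add_pow {R : Type*} [Ring R] (c : ℕ) (x : R) (j : ℕ) :
    ∃ u : R, (1 + c • x) ^ j = 1 + c • u := by
  induction j with
  | zero => exact ⟨0, by simp⟩
  | succ j ih =>
    obtain ⟨u, hu⟩ := ih
    refine ⟨u + x + c • (u * x), ?_⟩
    rw [pow_succ, hu]
    simp only [add_mul, mul_add, one_mul, mul_one, smul_add, smul_mul_assoc, mul_smul_comm]
    abel

/-- the `p`-th power map on the congruence subgroup has small fibres -/
theorem smul_sub_eq_zero {R : Type*} [Ring R] (p e : ℕ) (he : ∀ z : R, p ^ e • z = 0)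
    (x y : R) (h : (1 + p ^ 2 • x) ^ p = (1 + p ^ 2 • y) ^ p) :
    p • ((1 + p ^ 2 • x) - (1 + p ^ 2 • y)) = 0 := by
  set a := 1 + p ^ 2 • x with ha
  set b := 1 + p ^ 2 • y with hb
  have hW : ∀ j l : ℕ, ∃ W : R →+ R, ∀ d : R, a ^ j * d * b ^ l = d + p ^ 2 • W d := by
    intro j l
    obtain ⟨u, hu⟩ := one_add_pow (p ^ 2) x j
    obtain ⟨v, hv⟩ := one_add_pow (p ^ 2) y l
    refine ⟨AddMonoidHom.mulLeft u + AddMonoidHom.mulRight v +
      p ^ 2 • ((AddMonoidHom.mulRight v).comp (AddMonoidHom.mulLeft u)), fun d => ?_⟩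
    rw [ha, hb, hu, hv]
    simp only [AddMonoidHom.add_apply, AddMonoidHom.coe_mulLeft, AddMonoidHom.coe_mulRight,
      AddMonoidHom.nsmul_apply, AddMonoidHom.comp_apply, add_mul, mul_add, one_mul, mul_one,
      smul_add, smul_mul_assoc, mul_smul_comm]
    abel
  choose W hW using hW
  let V : R →+ R := ∑ j ∈ Finset.range p, W j (p - 1 - j)
  have h1 : p • (a - b) + p ^ 2 • V (a - b) = 0 := by
    have h2 := pow_sub_pow_eq a b p
    rw [h, sub_self] at h2
    rw [h2, Finset.sum_congr rfl (fun j _ => hW j (p - 1 - j) (a - b)), Finset.sum_add_distrib,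
      Finset.sum_const, Finset.card_range, ← Finset.smul_sum]
    simp only [V, AddMonoidHom.finsetSum_apply]
  set ε := p • (a - b) with hε
  have h3 : ε = p • (-V) ε := by
    rw [hε, AddMonoidHom.neg_apply, map_nsmul, smul_neg, smul_smul, ← sq]
    exact eq_neg_of_add_eq_zero_left h1
  have h4 : ∀ k : ℕ, ε = p ^ k • (⇑(-V))^[k] ε := by
    intro k
    induction k with
    | zero => simp
    | succ k ih =>
      have h5 : ∀ (m : ℕ) (z : R), (⇑(-V))^[m] (p • z) = p • (⇑(-V))^[m] z := by
        intro m
        induction m with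
        | zero => intro z; rfl
        | succ m ihm =>
          intro z
          rw [Function.iterate_succ_apply, Function.iterate_succ_apply, map_nsmul, ihm]
      conv_lhs => rw [ih, h3]
      rw [h5, smul_smul, ← pow_succ, Function.iterate_succ_apply]
  rw [h4 e, he]

end Pool.Agent.H602Z.PRank
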