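import Mathlib
import Pool.Agent.H602Z.PRank

set_option autoImplicit false

namespace Pool.Agent.H602Z.PRank

open Subgroup

/-- a finite `p`-group has a self-centralizing normal abelian subgroup -/
theorem exists_self_centralizing {p : ℕ} [hp : Fact p.Prime] {P : Type*} [Group P] [Finite P]
    (hP : IsPGroup p P) : ∃ A : Subgroup P, A.Normal ∧ (∀ a ∈ A, ∀ b ∈ A, a * b = b * a) ∧
      ∀ g : P, (∀ a ∈ A, g * a = a * g) → g ∈ A := by
  classical
  have hfin : Finite (Subgroup P) := Finite.of_injective (fun H : Subgroup P => (H : Set P))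
    SetLike.coe_injective
  obtain ⟨A, hA, hmax⟩ := exists_maximal_of_wellFoundedGT
    (fun A : Subgroup P => A.Normal ∧ ∀ a ∈ A, ∀ b ∈ A, a * b = b * a)
    ⟨⊥, inferInstance, by
      intro a ha b hb
      rw [mem_bot.1 ha, mem_bot.1 hb]⟩
  obtain ⟨hN, hc⟩ := hA
  refine ⟨A, hN, hc, ?_⟩
  by_contra hcon
  push Not at hcon
  obtain ⟨g, hg, hgA⟩ := hcon
  let C : Subgroup P := centralizer (A : Set P)
  have hCN : C.Normal := inferInstance
  let π := QuotientGroup.mk' A
  have hπ : Function.Surjective π := QuotientGroup.mk'_surjective A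
  let D : Subgroup (P ⧸ A) := C.map π
  have hDN : D.Normal := hCN.map π hπ
  have hQ : IsPGroup p (P ⧸ A) := hP.to_quotient A
  have hgC : g ∈ C := by
    rw [mem_centralizer_iff]
    intro a ha
    exact (hg a ha).symm
  have hDnt : Nontrivial D := by
    refine ⟨⟨1, ⟨π g, mem_map_of_mem π hgC⟩, fun h => hgA ?_⟩⟩
    have : π g = 1 := (congrArg Subtype.val h).symm
    exact (QuotientGroup.eq_one_iff g).1 this
  have hdvd : p ∣ Nat.card D := by
    obtain ⟨n, hn0, hn⟩ := (hQ.to_subgroup D).nontrivial_iff_card.mp hDnt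
    exact hn.symm ▸ dvd_pow_self _ (ne_of_gt hn0)
  let act : MulAction (P ⧸ A) D := MulAction.compHom D (MulAut.conjNormal (G := P ⧸ A) (H := D))
  have h1 : (1 : D) ∈ MulAction.fixedPoints (P ⧸ A) D := by
    intro q
    change MulAut.conjNormal q (1 : D) = 1
    exact map_one _
  obtain ⟨b, hb, hb1⟩ := hQ.exists_fixed_point_of_prime_dvd_card_of_fixed_point D hdvd h1
  obtain ⟨c, hcC, hcb⟩ := mem_map.1 b.2
  have hcent : ∀ q : P ⧸ A, q * π c * q⁻¹ = π c := by
    intro q
    have h2 : MulAut.conjNormal q b = b := hb q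
    have h3 := congrArg Subtype.val h2
    rw [MulAut.conjNormal_apply, ← hcb] at h3
    exact h3
  have hcA : c ∉ A := by
    intro h
    apply hb1
    apply Subtype.ext
    rw [← hcb]
    exact ((QuotientGroup.eq_one_iff c).2 h).symm
  let A' : Subgroup P := (zpowers (π c)).comap π
  have hZN : (zpowers (π c)).Normal := by
    refine ⟨fun x hx q => ?_⟩
    obtain ⟨k, rfl⟩ := mem_zpowers_iff.1 hx
    rw [← conj_zpow, hcent]
    exact zpow_mem (mem_zpowers _) k
  have hA'N : A'.Normal := hZN.comap π
  have hform : ∀ x ∈ A', ∃ k : ℤ, ∃ a ∈ A, x = c ^ k * a := by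
    intro x hx
    obtain ⟨k, hk⟩ := mem_zpowers_iff.1 (mem_comap.1 hx)
    refine ⟨k, (c ^ k)⁻¹ * x, ?_, by group⟩
    rw [← map_zpow] at hk
    exact QuotientGroup.eq.1 hk
  have hca : ∀ a ∈ A, Commute c a := fun a ha => ((mem_centralizer_iff.1 hcC) a ha).symm
  have hA'c : ∀ x ∈ A', ∀ y ∈ A', x * y = y * x := by
    intro x hx y hy
    obtain ⟨k, a, ha, rfl⟩ := hform x hx
    obtain ⟨l, b, hb, rfl⟩ := hform y hy
    have e1 : Commute (c ^ k) (c ^ l) := Commute.zpow_zpow_self c k l
    have e2 : Commute (c ^ k) b := (hca b hb).zpow_left k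
    have e3 : Commute a (c ^ l) := ((hca a ha).zpow_left l).symm
    have e4 : Commute a b := hc a ha b hb
    exact ((e1.mul_right e2).mul_left (e3.mul_right e4)).eq
  have hle : A ≤ A' := by
    intro a ha
    rw [mem_comap]
    have : π a = 1 := (QuotientGroup.eq_one_iff a).2 ha
    rw [this]; exact one_mem _
  have := hmax ⟨hA'N, hA'c⟩ hle
  exact hcA (this (mem_comap.2 (mem_zpowers _)))

/-- kernel of multiplication by `p ^ 2` -/
theorem card_ker_sq {R : Type*} [AddCommGroup R] [Finite R] (p m : ℕ)
    (h : Nat.card {z : R // p • z = 0} ≤ m) : Nat.card {z : R // p ^ 2 • z = 0} ≤ m * m := by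
  classical
  have : Fintype R := Fintype.ofFinite R
  rw [Nat.card_eq_fintype_card, Fintype.card_subtype] at h ⊢
  refine (Finset.card_le_mul_card_image_of_maps_to
    (t := Finset.univ.filter fun z : R => p • z = 0) (f := fun z => p • z) (fun z hz => ?_) m
    (fun y _ => ?_)).trans (Nat.mul_le_mul_left _ h)
  · simp only [Finset.mem_filter, Finset.mem_univ, true_and] at hz ⊢
    rw [smul_smul, ← sq, hz]
  · rcases Finset.eq_empty_or_nonempty ((Finset.univ.filter fun z : R => p ^ 2 • z = 0).filter
      fun z => p • z = y) with he | ⟨z₀, hz₀⟩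
    · rw [he]; exact Nat.zero_le _
    · refine le_trans (Finset.card_le_card_of_injOn (fun z => z - z₀) (fun z hz => ?_) ?_) h
      · simp only [Finset.coe_filter, Finset.mem_filter, Finset.mem_univ, true_and,
          Set.mem_ofPred_eq] at hz hz₀ ⊢
        rw [smul_sub, hz.2, hz₀.2, sub_self]
      · intro a _ b _ hab
        exact sub_left_injective hab

/-- the rank bound for a `p`-group mapped to a ring -/
theorem gen_ring {p : ℕ} [hp : Fact p.Prime] {P : Type*} [Group P] [Finite P] (hP : IsPGroup p P)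
    {R : Type*} [Ring R] [Finite R] (φ : P →* R) (e : ℕ) (heR : ∀ z : R, p ^ e • z = 0) (s : ℕ)
    (hRp : Nat.card {z : R // p • z = 0} ≤ p ^ s) (T : Finset P)
    (hker : ∀ g, φ g = 1 → g ∈ closure (T : Set P)) :
    ∃ S : Finset P, S.card ≤ 3 * s + T.card ∧ closure (S : Set P) = ⊤ := by
  classical
  -- the congruence subgroup
  let N : Subgroup P :=
    { carrier := {g | ∃ x : R, φ g = 1 + p ^ 2 • x}
      one_mem' := ⟨0, by rw [map_one, smul_zero, add_zero]⟩
      mul_mem' := by
        rintro g h ⟨x, hx⟩ ⟨y, hy⟩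
        refine ⟨x + y + p ^ 2 • (x * y), ?_⟩
        rw [map_mul, hx, hy]
        simp only [add_mul, mul_add, one_mul, mul_one, smul_add, smul_mul_assoc, mul_smul_comm]
        abel
      inv_mem' := by
        rintro g ⟨x, hx⟩
        refine ⟨-(φ g⁻¹ * x), ?_⟩
        have h1 : φ g⁻¹ * φ g = 1 := by rw [← map_mul, inv_mul_cancel, map_one]
        rw [hx, mul_add, mul_one, mul_smul_comm] at h1
        rw [smul_neg, ← sub_eq_add_neg]
        exact eq_sub_of_add_eq h1 }
  have hidx : Nat.card P ≤ p ^ (2 * s) * Nat.card N := by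
    let μ : R →+ R := nsmulAddMonoidHom (p ^ 2)
    have hq : Nat.card (R ⧸ μ.range) = Nat.card μ.ker := by
      have e1 := AddSubgroup.card_eq_card_quotient_mul_card_addSubgroup μ.range
      have e2 := AddSubgroup.card_eq_card_quotient_mul_card_addSubgroup μ.ker
      have e3 : Nat.card (R ⧸ μ.ker) = Nat.card μ.range :=
        Nat.card_congr (QuotientAddGroup.quotientKerEquivRange μ).toEquiv
      rw [e3, e1, mul_comm] at e2
      exact Nat.eq_of_mul_eq_mul_left Nat.card_pos e2
    have hk : Nat.card μ.ker ≤ p ^ (2 * s) := by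
      have := card_ker_sq p _ hRp
      rw [← pow_add, ← two_mul] at this
      exact this
    have : Fintype P := Fintype.ofFinite P
    have : Fintype (R ⧸ μ.range) := Fintype.ofFinite _
    have h1 := Finset.card_le_mul_card_image_of_maps_to (s := (Finset.univ : Finset P))
      (t := (Finset.univ : Finset (R ⧸ μ.range)))
      (f := fun g => (QuotientAddGroup.mk (φ g) : R ⧸ μ.range)) (fun _ _ => Finset.mem_univ _)
      (Nat.card N) (fun y _ => by
        rcases Finset.eq_empty_or_nonempty (Finset.univ.filter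
          fun g : P => (QuotientAddGroup.mk (φ g) : R ⧸ μ.range) = y) with he | ⟨g₀, hg₀⟩
        · rw [he]; exact Nat.zero_le _
        · rw [Nat.card_eq_fintype_card, Fintype.card_subtype]
          refine Finset.card_le_card_of_injOn (fun g => g₀⁻¹ * g) (fun g hg => ?_) ?_
          · simp only [Finset.coe_filter, Finset.mem_filter, Finset.mem_univ, true_and,
              Set.mem_ofPred_eq] at hg hg₀ ⊢
            obtain ⟨z, hz⟩ := QuotientAddGroup.eq.1 (hg₀.trans hg.symm)
            refine ⟨φ g₀⁻¹ * z, ?_⟩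
            have h2 : φ g = φ g₀ + p ^ 2 • z := by
              have : p ^ 2 • z = -φ g₀ + φ g := hz
              rw [this]; abel
            rw [map_mul, h2, mul_add, ← map_mul, inv_mul_cancel, map_one, mul_smul_comm]
          · intro a _ b _ hab
            exact mul_left_cancel hab)
    rw [Finset.card_univ, Finset.card_univ, ← Nat.card_eq_fintype_card,
      ← Nat.card_eq_fintype_card, hq] at h1
    rw [mul_comm]
    exact h1.trans (Nat.mul_le_mul_left _ hk)
  obtain ⟨S₁, hS₁, hS₁'⟩ := chain hP _ N hidx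
  let φ' : N →* Rˣ := φ.toHomUnits.comp N.subtype
  have hH : IsPGroup p φ'.range :=
    (hP.to_subgroup N).of_surjective φ'.rangeRestrict φ'.rangeRestrict_surjective
  have hval : ∀ g : φ'.range, ∃ x : R, ((g : Rˣ) : R) = 1 + p ^ 2 • x := by
    rintro ⟨_, ⟨n, hn⟩, rfl⟩
    exact hn
  obtain ⟨SH, hSH, hSH'⟩ := gen_of_fibres hH (s) (fun y => by
    rcases isEmpty_or_nonempty {g : φ'.range // g ^ p = y} with he | ⟨⟨g₀, hg₀⟩⟩
    · rw [Nat.card_of_isEmpty]; exact Nat.zero_le _
    · refine le_trans (Nat.card_le_card_of_injective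
        (fun g : {g : φ'.range // g ^ p = y} =>
          (⟨((g.1 : Rˣ) : R) - ((g₀ : Rˣ) : R), ?_⟩ : {z : R // p • z = 0})) ?_) hRp
      · obtain ⟨x, hx⟩ := hval g.1
        obtain ⟨x₀, hx₀⟩ := hval g₀
        have h1 : ((g.1 : Rˣ) : R) ^ p = ((g₀ : Rˣ) : R) ^ p := by
          have h2 : g.1 ^ p = g₀ ^ p := g.2.trans hg₀.symm
          have h3 := congrArg (fun t : φ'.range => ((t : Rˣ) : R)) h2
          simpa using h3
        rw [hx, hx₀] at h1 ⊢
        exact smul_sub_eq_zero p e heR x x₀ h1
      · intro a b hab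
        apply Subtype.ext
        apply Subtype.ext
        apply Units.ext
        exact sub_left_injective (congrArg Subtype.val hab))
  have hlift : ∀ g : φ'.range, ∃ n : P, φ n = ((g : Rˣ) : R) := by
    rintro ⟨_, ⟨n, hn⟩, rfl⟩
    exact ⟨n, rfl⟩
  choose lift hlift using hlift
  refine ⟨S₁ ∪ (SH.image lift ∪ T), ?_, ?_⟩
  · refine (Finset.card_union_le _ _).trans ?_
    have h1 := Finset.card_union_le (SH.image lift) (T)
    have h2 : (SH.image lift).card ≤ SH.card := Finset.card_image_le
    omega
  · set L := closure ((S₁ ∪ (SH.image lift ∪ T) : Finset P) : Set P) with hL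
    have hιL : closure (T : Set P) ≤ L := by
      apply Subgroup.closure_mono
      intro a ha
      simp only [Finset.coe_union, Finset.coe_image, Set.mem_union]
      exact Or.inr (Or.inr ha)
    have hNL : N ≤ L := by
      intro g hg
      have key : ∀ t ∈ closure (SH : Set φ'.range), ∃ l ∈ L, φ l = ((t : Rˣ) : R) := by
        intro t ht
        induction ht using closure_induction with
        | mem x hx =>
          refine ⟨lift x, subset_closure ?_, hlift x⟩
          simp only [Finset.coe_union, Finset.coe_image, Set.mem_union]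
          exact Or.inr (Or.inl ⟨x, hx, rfl⟩)
        | one => exact ⟨1, one_mem _, by simp⟩
        | mul x y _ _ hx hy =>
          obtain ⟨l, hl, hl'⟩ := hx
          obtain ⟨m, hm, hm'⟩ := hy
          exact ⟨l * m, mul_mem hl hm, by rw [map_mul, hl', hm']; simp⟩
        | inv x _ hx =>
          obtain ⟨l, hl, hl'⟩ := hx
          refine ⟨l⁻¹, inv_mem hl, ?_⟩
          have h1 : φ l⁻¹ * φ l = 1 := by rw [← map_mul, inv_mul_cancel, map_one]
          rw [hl'] at h1
          have h2 : ((x⁻¹ : φ'.range) : Rˣ) = (x : Rˣ)⁻¹ := rfl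
          rw [h2]
          exact (Units.inv_eq_of_mul_eq_one_left h1).symm
      obtain ⟨l, hl, hl'⟩ := key ⟨φ' ⟨g, hg⟩, ⟨_, rfl⟩⟩ (by rw [hSH']; trivial)
      have h1 : φ l = φ g := hl'
      have h2 : φ (l⁻¹ * g) = 1 := by
        rw [map_mul, ← h1, ← map_mul, inv_mul_cancel, map_one]
      have h3 := mul_mem hl (hιL (hker _ h2))
      rwa [mul_inv_cancel_left] at h3
    rw [eq_top_iff, ← hS₁']
    refine sup_le (Subgroup.closure_mono ?_) hNL
    intro x hx
    simp only [Finset.coe_union, Set.mem_union]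
    exact Or.inl hx

/-- the abstract rank bound -/
theorem gen_abs {p : ℕ} [hp : Fact p.Prime] {P : Type*} [Group P] [Finite P] (hP : IsPGroup p P)
    {A : Type*} [CommGroup A] [Finite A] (hA : IsPGroup p A) (ι : A →* P)
    (φ : P →* AddMonoid.End (Additive A)) (hker : ∀ g, φ g = 1 → g ∈ ι.range) (r : ℕ)
    (hr : Nat.card {a : A // a ^ p = 1} ≤ p ^ r) :
    ∃ S : Finset P, S.card ≤ 3 * r ^ 2 + r ∧ closure (S : Set P) = ⊤ := by
  classical
  let R := AddMonoid.End (Additive A)
  have hRfin : Finite R := Finite.of_injective (fun f : R => (f : Additive A → Additive A))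
    DFunLike.coe_injective
  -- generators of `A`
  obtain ⟨SA, hSA, hSA'⟩ := gen_of_fibres hA r (fun y => by
    rcases isEmpty_or_nonempty {g : A // g ^ p = y} with he | ⟨⟨g₀, hg₀⟩⟩
    · rw [Nat.card_of_isEmpty]; exact Nat.zero_le _
    · refine le_trans (Nat.card_le_card_of_injective
        (fun g : {g : A // g ^ p = y} => (⟨g.1 * g₀⁻¹, by
          rw [mul_pow, inv_pow, g.2, hg₀, mul_inv_cancel]⟩ : {a : A // a ^ p = 1})) ?_) hr
      intro a b hab
      exact Subtype.ext (mul_right_cancel (congrArg Subtype.val hab)))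
  -- the exponent
  obtain ⟨e, he⟩ := (IsPGroup.iff_card (p := p)).1 hA
  have heR : ∀ z : R, p ^ e • z = 0 := by
    intro z
    apply AddMonoidHom.ext
    intro a
    change p ^ e • z a = 0
    rw [← he]
    exact congrArg Additive.ofMul (pow_card_eq_one' (x := Additive.toMul (z a)))
  -- the `p`-torsion of `R`
  have hRp : Nat.card {z : R // p • z = 0} ≤ p ^ (r ^ 2) := by
    have h1 : Nat.card {z : R // p • z = 0} ≤ Nat.card (SA → {a : A // a ^ p = 1}) := by
      refine Nat.card_le_card_of_injective (fun z s => ⟨Additive.toMul (z.1 (Additive.ofMul s.1)),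
        ?_⟩) ?_
      · have h2 : p • z.1 (Additive.ofMul s.1) = 0 := by
          have := congrArg (fun f : R => f (Additive.ofMul s.1)) z.2
          exact this
        exact congrArg Additive.toMul h2
      · intro z w hzw
        apply Subtype.ext
        apply AddMonoidHom.ext
        intro a
        have ha : Additive.toMul a ∈ closure (SA : Set A) := by rw [hSA']; trivial
        have key : ∀ x ∈ closure (SA : Set A),
            z.1 (Additive.ofMul x) = w.1 (Additive.ofMul x) := by
          intro x hx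
          induction hx using closure_induction with
          | mem x hx => exact congrArg (fun t => Additive.ofMul t.1) (congrFun hzw ⟨x, hx⟩)
          | one => rw [ofMul_one, map_zero, map_zero]
          | mul x y _ _ hx hy => rw [ofMul_mul, map_add, map_add, hx, hy]
          | inv x _ hx => rw [ofMul_inv, map_neg, map_neg, hx]
        exact key _ ha
    refine h1.trans ?_
    rw [Nat.card_fun, Nat.card_eq_fintype_card (α := SA), Fintype.card_coe]
    calc Nat.card {a : A // a ^ p = 1} ^ SA.card ≤ (p ^ r) ^ SA.card := Nat.pow_le_pow_left hr _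
      _ ≤ (p ^ r) ^ r := Nat.pow_le_pow_right (pow_pos hp.out.pos r) hSA
      _ = p ^ (r ^ 2) := by rw [← pow_mul, sq]
  obtain ⟨S, hS, hS'⟩ := gen_ring hP φ e heR (r ^ 2) hRp (SA.image ι) (fun g hg => by
    have h1 := hker g hg
    rw [MonoidHom.range_eq_map, ← hSA', MonoidHom.map_closure] at h1
    rw [Finset.coe_image]
    exact h1)
  have h3 : (SA.image ι).card ≤ SA.card := Finset.card_image_le
  exact ⟨S, by omega, hS'⟩

/-- a finite `p`-group whose elementary abelian subgroups have order at most `p ^ r` is generated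
by at most `3 r ^ 2 + r` elements -/
theorem gen_of_elementary {p : ℕ} [hp : Fact p.Prime] {P : Type*} [Group P] [Finite P]
    (hP : IsPGroup p P) (r : ℕ)
    (h : ∀ E : Subgroup P, (∀ a ∈ E, ∀ b ∈ E, a * b = b * a) → (∀ a ∈ E, a ^ p = 1) →
      Nat.card E ≤ p ^ r) :
    ∃ S : Finset P, S.card ≤ 3 * r ^ 2 + r ∧ closure (S : Set P) = ⊤ := by
  obtain ⟨A, hN, hc, hself⟩ := exists_self_centralizing hP
  let inst : CommGroup A :=
    { (inferInstance : Group A) with
      mul_comm := fun a b => Subtype.ext (hc a.1 a.2 b.1 b.2) }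
  let φ : P →* AddMonoid.End (Additive A) :=
    { toFun := fun g => MonoidHom.toAdditive (MulAut.conjNormal g : MulAut A).toMonoidHom
      map_one' := by
        apply AddMonoidHom.ext
        intro a
        rw [map_one]
        rfl
      map_mul' := fun g h => by
        apply AddMonoidHom.ext
        intro a
        rw [map_mul]
        rfl }
  refine gen_abs hP (hP.to_subgroup A) A.subtype φ ?_ r ?_
  · intro g hg
    rw [range_subtype]
    apply hself
    intro a ha
    have h1 : φ g (Additive.ofMul ⟨a, ha⟩) = Additive.ofMul ⟨a, ha⟩ := by rw [hg]; rfl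
    have h2 : g * a * g⁻¹ = a := congrArg (fun t : Additive A => ((Additive.toMul t : A) : P)) h1
    calc g * a = g * a * g⁻¹ * g := by group
      _ = a * g := by rw [h2]
  · let E : Subgroup P :=
      { carrier := {a | a ∈ A ∧ a ^ p = 1}
        one_mem' := ⟨one_mem _, one_pow _⟩
        mul_mem' := by
          rintro a b ⟨ha, ha'⟩ ⟨hb, hb'⟩
          refine ⟨mul_mem ha hb, ?_⟩
          have : Commute a b := hc a ha b hb
          rw [this.mul_pow, ha', hb', one_mul]
        inv_mem' := by
          rintro a ⟨ha, ha'⟩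
          exact ⟨inv_mem ha, by rw [inv_pow, ha', inv_one]⟩ }
    refine le_trans (Nat.card_le_card_of_injective
      (fun a : {a : A // a ^ p = 1} => (⟨a.1.1, a.1.2, congrArg Subtype.val a.2⟩ : E)) ?_)
      (h E (fun a ha b hb => hc a ha.1 b hb.1) (fun a ha => ha.2))
    intro a b hab
    exact Subtype.ext (Subtype.ext (congrArg (fun t : E => (t : P)) hab))

end Pool.Agent.H602Z.PRank
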