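import Mathlib
import Pool.Agent.Helper835.PrimesFinal
import Pool.Agent.H602Z.PRank2

set_option autoImplicit false

namespace Pool.Agent.H602Z.ManyGen

open Pool.Agent.Helper835.Flags Pool.Agent.Helper835.Select Pool.Agent.Helper835.Primes
open Pool.Agent.H602Z.PRank

/-- the obstruction for an ordered pair of subgroups -/
def Bad {G : Type} [Group G] (A B : Subgroup G) (t : G) : Prop :=
  ∃ u ∈ B, u ≠ 1 ∧ ∃ a ∈ A, ∃ b ∈ A, u = t⁻¹ * a * t * b

theorem good_of_not_bad {G : Type} [Group G] {A B : Subgroup G} (hAB : A ⊓ B = ⊥) (t : G)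
    (h1 : ¬ Bad A B t) (h2 : ¬ Bad B A t) : Good ![A, B] t := by
  intro x hx
  obtain ⟨a, ha, b, hb, e1⟩ := hx 0 0
  obtain ⟨a', ha', u, hu, e2⟩ := hx 0 1
  obtain ⟨c, hc, d, hd, e3⟩ := hx 1 1
  obtain ⟨c', hc', u', hu', e4⟩ := hx 1 0
  change a ∈ A at ha
  change b ∈ A at hb
  change a' ∈ A at ha'
  change u ∈ B at hu
  change c ∈ B at hc
  change d ∈ B at hd
  change c' ∈ B at hc'
  change u' ∈ A at hu'
  have hu1 : u = 1 := by
    by_contra hne
    refine h1 ⟨u, hu, hne, a'⁻¹ * a, A.mul_mem (A.inv_mem ha') ha, b, hb, ?_⟩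
    have : u = t⁻¹ * a'⁻¹ * (a' * t * u) := by group
    rw [this, ← e2, e1]; group
  have hu2 : u' = 1 := by
    by_contra hne
    refine h2 ⟨u', hu', hne, c'⁻¹ * c, B.mul_mem (B.inv_mem hc') hc, d, hd, ?_⟩
    have : u' = t⁻¹ * c'⁻¹ * (c' * t * u') := by group
    rw [this, ← e4, e3]; group
  rw [hu1, mul_one] at e2
  rw [hu2, mul_one] at e4
  have h3 : a' = c' := mul_right_cancel (e2.symm.trans e4)
  have h4 : a' ∈ A ⊓ B := ⟨ha', h3 ▸ hc'⟩
  rw [hAB, Subgroup.mem_bot] at h4
  rw [e2, h4, one_mul]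

open Classical in
/-- among many pairwise disjoint small subgroups some pair has few bad elements -/
theorem exists_pair {G : Type} [Group G] [Fintype G] {ι : Type} [Fintype ι] (B : ι → Subgroup G)
    (hB : ∀ c c', c ≠ c' → B c ⊓ B c' = ⊥) (P : ℕ) (hP : ∀ c, Nat.card (B c) ≤ P)
    (hι : 32 * P ^ 2 + 2 ≤ Fintype.card ι) :
    ∃ c c', c ≠ c' ∧
      16 * (Finset.univ.filter fun t : G => ¬ Good ![B c, B c'] t).card ≤ Fintype.card G := by
  set n := Fintype.card G with hn
  set M := Fintype.card ι with hM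
  have h1 : ∀ (c : ι) (t : G), (Finset.univ.filter fun c' => Bad (B c) (B c') t).card ≤ P ^ 2 := by
    intro c t
    have hcard : ((Finset.univ.filter fun a : G => a ∈ B c) ×ˢ
        (Finset.univ.filter fun a : G => a ∈ B c)).card ≤ P ^ 2 := by
      have : (Finset.univ.filter fun a : G => a ∈ B c).card ≤ P := by
        have := hP c
        rwa [Nat.card_eq_fintype_card, Fintype.card_subtype] at this
      rw [Finset.card_product, sq]
      exact Nat.mul_le_mul this this
    refine le_trans (Finset.card_le_card_of_forall_subsingleton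
      (fun (c' : ι) (ab : G × G) => t⁻¹ * ab.1 * t * ab.2 ∈ B c' ∧ t⁻¹ * ab.1 * t * ab.2 ≠ 1)
      ?_ ?_) hcard
    · intro c' hc'
      obtain ⟨u, hu, hu1, a, ha, b, hb, e⟩ := (Finset.mem_filter.1 hc').2
      refine ⟨(a, b), ?_, ?_⟩
      · simp [ha, hb]
      · rw [← e]; exact ⟨hu, hu1⟩
    · intro ab _ c₁ hc₁ c₂ hc₂
      by_contra hne
      have h3 : t⁻¹ * ab.1 * t * ab.2 ∈ B c₁ ⊓ B c₂ := ⟨hc₁.2.1, hc₂.2.1⟩
      rw [hB c₁ c₂ hne, Subgroup.mem_bot] at h3
      exact hc₁.2.2 h3
  let β : ι → ι → ℕ := fun c c' => (Finset.univ.filter fun t : G => Bad (B c) (B c') t).card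
  have h2 : ∀ c, ∑ c', β c c' ≤ n * P ^ 2 := by
    intro c
    have : ∑ c', β c c' = ∑ t : G, (Finset.univ.filter fun c' => Bad (B c) (B c') t).card := by
      simp only [β, Finset.card_filter]
      exact Finset.sum_comm
    rw [this]
    calc ∑ t : G, (Finset.univ.filter fun c' => Bad (B c) (B c') t).card
        ≤ ∑ _t : G, P ^ 2 := Finset.sum_le_sum fun t _ => h1 c t
      _ = n * P ^ 2 := by rw [Finset.sum_const, Finset.card_univ, smul_eq_mul]
  have hne : (Finset.univ : Finset ι).Nonempty := by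
    rw [← Finset.card_pos, Finset.card_univ]; omega
  have h3 : ∑ c, ∑ c', (β c c' + β c' c) ≤ ∑ _c : ι, 2 * (n * P ^ 2) := by
    simp only [Finset.sum_add_distrib]
    rw [Finset.sum_comm (f := fun c c' => β c' c), ← Finset.sum_add_distrib]
    exact Finset.sum_le_sum fun c _ => by have := h2 c; omega
  obtain ⟨c, _, hc⟩ := Finset.exists_le_of_sum_le hne h3
  by_contra hcon
  push Not at hcon
  have h4 : ∀ c' ∈ Finset.univ.erase c, n + 1 ≤ 16 * (β c c' + β c' c) := by
    intro c' hc'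
    have hcc : c ≠ c' := (Finset.ne_of_mem_erase hc').symm
    have h5 := hcon c c' hcc
    have h6 : (Finset.univ.filter fun t : G => ¬ Good ![B c, B c'] t).card ≤ β c c' + β c' c := by
      refine le_trans (Finset.card_le_card ?_) (Finset.card_union_le _ _)
      intro t ht
      rw [Finset.mem_union, Finset.mem_filter, Finset.mem_filter]
      by_contra h7
      push Not at h7
      exact (Finset.mem_filter.1 ht).2 (good_of_not_bad (hB c c' hcc) t
        (h7.1 (Finset.mem_univ _)) (h7.2 (Finset.mem_univ _)))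
    omega
  have h5 := Finset.sum_le_sum h4
  rw [Finset.sum_const, Finset.card_erase_of_mem (Finset.mem_univ c), Finset.card_univ,
    smul_eq_mul, ← Finset.mul_sum] at h5
  have h6 : ∑ c' ∈ Finset.univ.erase c, (β c c' + β c' c) ≤ ∑ c', (β c c' + β c' c) :=
    Finset.sum_le_sum_of_subset (Finset.erase_subset _ _)
  have h7 : (32 * P ^ 2 + 1) * (n + 1) ≤ (M - 1) * (n + 1) := Nat.mul_le_mul_right _ (by omega)
  nlinarith

theorem exists_inj {p : ℕ} [hp : Fact p.Prime] (ρ : ℕ) (hρ : ρ ≠ 0) (V : Type) [AddCommGroup V]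
    [Module (ZMod p) V] [Finite V] (hcard : p ^ (15 * ρ) ≤ Nat.card V) :
    ∃ f : (GaloisField p ρ × (Fin 14 → GaloisField p ρ)) →+ V, Function.Injective f := by
  suffices h : ∃ f : (GaloisField p ρ × (Fin 14 → GaloisField p ρ)) →ₗ[ZMod p] V,
      Function.Injective f by
    obtain ⟨f, hf⟩ := h
    exact ⟨f.toAddMonoidHom, hf⟩
  have hfinE : Module.Finite (ZMod p) V := Module.Finite.of_finite
  apply finrank_le_iff_exists_linearMap.1
  rw [Module.finrank_prod, Module.finrank_pi_fintype, GaloisField.finrank p hρ]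
  simp only [Finset.sum_const, Finset.card_univ, Fintype.card_fin, smul_eq_mul]
  have : Fintype V := Fintype.ofFinite _
  have h1 := Module.card_eq_pow_finrank (K := ZMod p) (V := V)
  rw [ZMod.card, ← Nat.card_eq_fintype_card] at h1
  rw [h1] at hcard
  have := (Nat.pow_le_pow_iff_right hp.out.one_lt).1 hcard
  omega

/-- a large elementary abelian subgroup contains many pairwise disjoint subgroups -/
theorem exists_spread {G : Type} [Group G] [Finite G] {p : ℕ} [hp : Fact p.Prime] (ρ : ℕ)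
    (hρ : ρ ≠ 0) (E : Subgroup G) (hc : ∀ a ∈ E, ∀ b ∈ E, a * b = b * a)
    (he : ∀ a ∈ E, a ^ p = 1) (hcard : p ^ (15 * ρ) ≤ Nat.card E) :
    ∃ B : (Fin 14 → GaloisField p ρ) → Subgroup G,
      (∀ c c', c ≠ c' → B c ⊓ B c' = ⊥) ∧ ∀ c, Nat.card (B c) = p ^ ρ := by
  classical
  let F := GaloisField p ρ
  let inst : CommGroup E :=
    { (inferInstance : Group E) with
      mul_comm := fun a b => Subtype.ext (hc a.1 a.2 b.1 b.2) }
  let inst2 : Module (ZMod p) (Additive E) := AddCommGroup.zmodModule (fun x => by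
    have : (Additive.toMul x) ^ p = 1 := Subtype.ext (he _ (Additive.toMul x).2)
    exact congrArg Additive.ofMul this)
  obtain ⟨f, hf⟩ := exists_inj ρ hρ (Additive E) (by
    rw [Nat.card_congr Additive.toMul]; exact hcard)
  let j : (F × (Fin 14 → F)) → G := fun v => ((Additive.toMul (f v) : E) : G)
  have hj : Function.Injective j := fun v w h => hf (Additive.toMul.injective (Subtype.ext h))
  have hj0 : j 0 = 1 := by simp only [j, map_zero]; rfl
  have hjadd : ∀ v w, j (v + w) = j v * j w := by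
    intro v w
    simp only [j, map_add]; rfl
  let ψ : (Fin 14 → F) → (Multiplicative F →* G) := fun c =>
    { toFun := fun l => j (Multiplicative.toAdd l, Multiplicative.toAdd l • c)
      map_one' := by
        rw [toAdd_one, zero_smul]; exact hj0
      map_mul' := fun a b => by
        rw [toAdd_mul, add_smul, ← hjadd]; rfl }
  have hψ : ∀ c, Function.Injective (ψ c) := by
    intro c a b hab
    have := hj hab
    exact Multiplicative.toAdd.injective (congrArg Prod.fst this)
  refine ⟨fun c => (ψ c).range, ?_, ?_⟩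
  · intro c c' hcc
    rw [eq_bot_iff]
    rintro g ⟨⟨a, ha⟩, ⟨b, hb⟩⟩
    rw [Subgroup.mem_bot]
    have h1 := hj (ha.trans hb.symm)
    have h2 : Multiplicative.toAdd a = Multiplicative.toAdd b := congrArg Prod.fst h1
    have h3 : Multiplicative.toAdd a • c = Multiplicative.toAdd b • c' := congrArg Prod.snd h1
    rw [← h2] at h3
    by_cases h0 : Multiplicative.toAdd a = 0
    · have : a = 1 := Multiplicative.toAdd.injective h0
      rw [← ha, this, map_one]
    · exact absurd (smul_right_injective _ h0 h3) hcc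
  · intro c
    rw [← Nat.card_congr (MonoidHom.ofInjective (hψ c)).toEquiv,
      Nat.card_congr Multiplicative.toAdd, GaloisField.card p ρ hρ]

/-- a finite group is generated by generating sets of its Sylow subgroups -/
theorem rank_le_of_pgroups {G : Type} [Group G] [Finite G] (s : ℕ)
    (h : ∀ p : ℕ, p.Prime → ∀ Q : Subgroup G, IsPGroup p Q →
      ∃ S : Finset Q, S.card ≤ s ∧ Subgroup.closure (S : Set Q) = ⊤) :
    Group.rank G ≤ (Nat.card G).primeFactors.card * s := by
  classical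
  have h1 : ∀ p : ℕ, ∃ T : Finset G, T.card ≤ s ∧
      (p.Prime → ¬ p ∣ (Subgroup.closure (T : Set G)).index) := by
    intro p
    by_cases hp : p.Prime
    · have : Fact p.Prime := ⟨hp⟩
      obtain ⟨Q⟩ : Nonempty (Sylow p G) := inferInstance
      obtain ⟨S, hS, hS'⟩ := h p hp Q Q.isPGroup'
      refine ⟨S.image Subtype.val, Finset.card_image_le.trans hS, fun _ => ?_⟩
      have : Subgroup.closure ((S.image Subtype.val : Finset G) : Set G) = Q := by
        have h2 := congrArg (Subgroup.map (Q : Subgroup G).subtype) hS'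
        rw [MonoidHom.map_closure, ← MonoidHom.range_eq_map, Subgroup.range_subtype] at h2
        rw [Finset.coe_image]
        exact h2
      rw [this]
      exact Q.not_dvd_index
    · exact ⟨∅, Nat.zero_le _, fun h => absurd h hp⟩
  choose T hT hT' using h1
  let U := (Nat.card G).primeFactors.biUnion T
  have hU : Subgroup.closure (U : Set G) = ⊤ := by
    rw [← Subgroup.index_eq_one]
    by_contra hne
    obtain ⟨p, hp, hdvd⟩ := Nat.exists_prime_and_dvd hne
    have hmem : p ∈ (Nat.card G).primeFactors :=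
      Nat.mem_primeFactors.2 ⟨hp, hdvd.trans (Subgroup.index_dvd_card _), Nat.card_pos.ne'⟩
    apply hT' p hp
    refine hdvd.trans (Subgroup.index_dvd_of_le (Subgroup.closure_mono ?_))
    intro x hx
    exact Finset.mem_coe.2 (Finset.mem_biUnion.2 ⟨p, hmem, hx⟩)
  refine (Group.rank_le hU).trans ?_
  exact Finset.card_biUnion_le_card_mul _ _ _ fun p _ => hT p

/-- groups with a large elementary abelian subgroup -/
theorem core (ρ : ℕ) (hρ : 3 ≤ ρ) (hm₀ : ∀ m ≥ ρ, 2 ^ 20 * (4 * (m + 1)) ^ 14 ≤ 2 ^ m)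
    (G : Type) [Group G] [Finite G] {p : ℕ} [hp : Fact p.Prime] (E : Subgroup G)
    (hc : ∀ a ∈ E, ∀ b ∈ E, a * b = b * a) (he : ∀ a ∈ E, a ^ p = 1)
    (hcard : p ^ (15 * ρ) ≤ Nat.card E) :
    ∃ a : ℕ, a * 2 ^ ρ ≤ Nat.card G ∧ 2 ^ ρ ≤ Nat.card G ∧
    ∃ (W : Type) (_ : Finite W) (X : SimpleGraph W), Nonempty ((X ≃g X) ≃* G) ∧
      Nat.card W = 5 * (a + a) + 5 := by
  classical
  have : Fintype G := Fintype.ofFinite G
  set n := Nat.card G with hn
  have hnf : Fintype.card G = n := by rw [hn, Nat.card_eq_fintype_card]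
  have hnpos : 0 < n := Nat.card_pos
  set P := p ^ ρ with hP
  have hP2 : 2 ^ ρ ≤ P := Nat.pow_le_pow_left hp.out.two_le ρ
  have hP8 : 8 ≤ P := le_trans (Nat.pow_le_pow_right (by norm_num : 0 < 2) hρ) hP2
  have hPn : P ^ 15 ≤ n := by
    rw [hP, ← pow_mul, mul_comm]
    exact hcard.trans (Subgroup.card_le_card_group E)
  have hP14 : P ^ 14 ≤ n := (Nat.pow_le_pow_right (by omega) (by norm_num)).trans hPn
  have hP1 : P ≤ n := by
    have : P ^ 1 ≤ P ^ 14 := Nat.pow_le_pow_right (by omega) (by norm_num)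
    rw [pow_one] at this
    omega
  obtain ⟨B, hB, hBc⟩ := exists_spread ρ (by omega) E hc he hcard
  have : Fintype (GaloisField p ρ) := Fintype.ofFinite _
  obtain ⟨c, c', hcc, hbad⟩ := exists_pair B hB P (fun c => (hBc c).le) (by
    rw [Fintype.card_fun, Fintype.card_fin, ← Nat.card_eq_fintype_card,
      GaloisField.card p ρ (by omega), ← hP]
    have h1 : 64 ≤ P ^ 12 := by
      calc 64 ≤ 8 ^ 12 := by norm_num
        _ ≤ P ^ 12 := Nat.pow_le_pow_left hP8 12
    have h2 : 1 ≤ P ^ 2 := Nat.one_le_pow _ _ (by omega)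
    calc 32 * P ^ 2 + 2 ≤ 64 * P ^ 2 := by omega
      _ ≤ P ^ 12 * P ^ 2 := Nat.mul_le_mul_right _ h1
      _ = P ^ 14 := by ring)
  let H : Fin 2 → Subgroup G := ![B c, B c']
  have c0 : Nat.card (H 0) = P := hBc c
  have c1 : Nat.card (H 1) = P := hBc c'
  have i0 : (H 0).index * P = n := by rw [← c0, mul_comm]; exact (H 0).card_mul_index
  have i1 : (H 1).index * P = n := by rw [← c1, mul_comm]; exact (H 1).card_mul_index
  have i01 : (H 1).index = (H 0).index :=
    Nat.eq_of_mul_eq_mul_right (by omega) (i1.trans i0.symm)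
  have hlog : ρ ≤ Nat.log 2 n := Nat.le_log_of_pow_le (by norm_num) (hP2.trans hP1)
  have hsz := arith_size (by omega : 2 ≤ P) (Nat.pow_log_le_self 2 hnpos.ne') hP14 (hm₀ _ hlog)
  have hV : 5 < (H 0).index + (H 1).index := by
    have h1 : P * P ≤ (H 0).index * P := by
      rw [i0, ← sq]
      exact (Nat.pow_le_pow_right (by omega) (by norm_num)).trans hPn
    have := Nat.le_of_mul_le_mul_right h1 (by omega)
    omega
  refine ⟨(H 0).index, ?_, hP2.trans hP1, ?_⟩
  · rw [← i0]
    exact Nat.mul_le_mul_left _ hP2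
  · have := exists_graph_of_good (H := H) (hB c c' hcc) _ le_rfl (by
      have hHF : (HF H).card ≤ 2 * P := by
        have := card_HF_le (H := H)
        rw [c0, c1] at this
        omega
      have hle : ((HF H).card + 4 * (Nat.log 2 (Fintype.card G) + 1)) ^ 7 ≤
          (2 * P + 4 * (Nat.log 2 n + 1)) ^ 7 := by
        rw [hnf]
        exact Nat.pow_le_pow_left (by omega) 7
      have hbad' : 16 * (Finset.univ.filter fun t : G => ¬ Good H t).card ≤ Fintype.card G := by
        convert hbad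
      rw [hnf] at hle hbad' ⊢
      omega) hV
    rwa [i01] at this

/-- Final form. -/
theorem main (ε : ℝ) (hε : 0 < ε) : ∃ N : ℕ, ∀ (G : Type) [Group G] [Finite G],
    N ≤ Group.rank G →
    ∃ (V : Type) (_ : Finite V) (X : SimpleGraph V), Nonempty ((X ≃g X) ≃* G) ∧
      (Nat.card V : ℝ) < ε * Nat.card G := by
  obtain ⟨m₀, hm₀⟩ := exists_m0
  obtain ⟨N₁, hN₁⟩ := Pool.Agent.Helper835.Primes.main ε hε
  let ρ := max 3 (max m₀ ⌈20 / ε⌉₊)
  have hρ3 : 3 ≤ ρ := le_max_left _ _
  have hρm : m₀ ≤ ρ := (le_max_left _ _).trans (le_max_right _ _)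
  have hρε : ⌈20 / ε⌉₊ ≤ ρ := (le_max_right _ _).trans (le_max_right _ _)
  refine ⟨N₁ * (3 * (15 * ρ) ^ 2 + 15 * ρ) + 1, ?_⟩
  intro G _ _ hrank
  by_cases hω : N₁ ≤ (Nat.card G).primeFactors.card
  · exact hN₁ G hω
  · have hex : ∃ p : ℕ, p.Prime ∧ ∃ E : Subgroup G, (∀ a ∈ E, ∀ b ∈ E, a * b = b * a) ∧
        (∀ a ∈ E, a ^ p = 1) ∧ p ^ (15 * ρ) ≤ Nat.card E := by
      by_contra hcon
      push Not at hcon
      have h1 := rank_le_of_pgroups (G := G) (3 * (15 * ρ) ^ 2 + 15 * ρ) (fun p hp Q hQ => by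
        have : Fact p.Prime := ⟨hp⟩
        apply gen_of_elementary hQ
        intro E hc he
        have h2 := hcon p hp (E.map Q.subtype) (by
          rintro _ ⟨a, ha, rfl⟩ _ ⟨b, hb, rfl⟩
          rw [← map_mul, ← map_mul, hc a ha b hb]) (by
          rintro _ ⟨a, ha, rfl⟩
          rw [← map_pow, he a ha, map_one])
        rw [Subgroup.card_map_of_injective Q.subtype_injective] at h2
        exact h2.le)
      have h2 : (Nat.card G).primeFactors.card * (3 * (15 * ρ) ^ 2 + 15 * ρ) ≤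
          N₁ * (3 * (15 * ρ) ^ 2 + 15 * ρ) := Nat.mul_le_mul_right _ (by omega)
      omega
    obtain ⟨p, hp, E, hc, he, hcard⟩ := hex
    have : Fact p.Prime := ⟨hp⟩
    obtain ⟨a, ha, hn, W, hW, X, hX, hcardW⟩ :=
      core ρ hρ3 (fun m hm => hm₀ m (hρm.trans hm)) G E hc he hcard
    refine ⟨W, hW, X, hX, ?_⟩
    set n := Nat.card G
    have hK : 20 / ε < (2 : ℝ) ^ ρ := by
      have h1 : (20 / ε : ℝ) ≤ ρ := (Nat.le_ceil _).trans (by exact_mod_cast hρε)
      have h2 : (ρ : ℝ) < 2 ^ ρ := by exact_mod_cast Nat.lt_two_pow_self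
      linarith
    have hK' : 20 < (2 : ℝ) ^ ρ * ε := by rwa [div_lt_iff₀ hε] at hK
    have ha' : (a : ℝ) * 2 ^ ρ ≤ n := by exact_mod_cast ha
    have hn' : (2 : ℝ) ^ ρ ≤ n := by exact_mod_cast hn
    have ha0 : (0 : ℝ) ≤ a := Nat.cast_nonneg a
    rw [hcardW]
    push_cast
    have h1 : 20 * (a : ℝ) ≤ ε * n := by nlinarith
    have h2 : 20 < ε * n := by nlinarith
    linarith

end Pool.Agent.H602Z.ManyGen
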