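import Pool.Agent.H304Z.NH.Spec

set_option autoImplicit false
set_option linter.unusedSectionVars false
set_option linter.unusedVariables false

namespace Pool.Agent.H602Z.NH

open Matrix Finset
open scoped MatrixOrder ComplexOrder
open Pool.Agent.H304Z.NH

variable {n : Type} [Fintype n] [DecidableEq n]

lemma tr_add (x y : Mat n) : tr (x + y) = tr x + tr y := by
  simp [tr, trace_add]

lemma tr_sub (x y : Mat n) : tr (x - y) = tr x - tr y := by
  simp [tr, trace_sub]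

lemma tr_smul (r : ℝ) (x : Mat n) : tr (r • x) = r * tr x := by
  simp [tr, trace_smul]

lemma tr_zero : tr (0 : Mat n) = 0 := by simp [tr]

lemma tr_sum {ι : Type} (s : Finset ι) (f : ι → Mat n) :
    tr (∑ i ∈ s, f i) = ∑ i ∈ s, tr (f i) := by
  simp [tr, trace_sum]

lemma tr_comm (x y : Mat n) : tr (x * y) = tr (y * x) := by
  simp only [tr]; rw [trace_mul_comm]

lemma tr_conj (x : Mat n) : tr xᴴ = tr x := by
  simp [tr, trace_conjTranspose]

lemma tr_nonneg {x : Mat n} (hx : 0 ≤ x) : 0 ≤ tr x := by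
  have h := (nonneg_iff_posSemidef.mp hx).trace_nonneg
  exact (Complex.le_def.mp h).1

lemma tr_mono {x y : Mat n} (h : x ≤ y) : tr x ≤ tr y := by
  have := tr_nonneg (sub_nonneg.mpr h)
  rw [tr_sub] at this
  linarith

lemma star_mul_nonneg (x : Mat n) : 0 ≤ xᴴ * x :=
  nonneg_iff_posSemidef.mpr (posSemidef_conjTranspose_mul_self x)

lemma mul_star_nonneg (x : Mat n) : 0 ≤ x * xᴴ :=
  nonneg_iff_posSemidef.mpr (posSemidef_self_mul_conjTranspose x)

lemma conj_nonneg {a : Mat n} (ha : 0 ≤ a) (c : Mat n) : 0 ≤ cᴴ * a * c :=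
  nonneg_iff_posSemidef.mpr ((nonneg_iff_posSemidef.mp ha).conjTranspose_mul_mul_same c)

lemma conj_nonneg' {a : Mat n} (ha : 0 ≤ a) (c : Mat n) : 0 ≤ c * a * cᴴ :=
  nonneg_iff_posSemidef.mpr ((nonneg_iff_posSemidef.mp ha).mul_mul_conjTranspose_same c)

lemma conj_mono {a b : Mat n} (h : a ≤ b) (c : Mat n) : cᴴ * a * c ≤ cᴴ * b * c := by
  have := conj_nonneg (sub_nonneg.mpr h) c
  rw [Matrix.mul_sub, Matrix.sub_mul] at this
  exact sub_nonneg.mp this

lemma conj_mono' {a b : Mat n} (h : a ≤ b) (c : Mat n) : c * a * cᴴ ≤ c * b * cᴴ := by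
  have := conj_nonneg' (sub_nonneg.mpr h) c
  rw [Matrix.mul_sub, Matrix.sub_mul] at this
  exact sub_nonneg.mp this

lemma smul_nn {a : Mat n} (ha : 0 ≤ a) {r : ℝ} (hr : 0 ≤ r) : 0 ≤ r • a :=
  nonneg_iff_posSemidef.mpr ((nonneg_iff_posSemidef.mp ha).smul hr)

lemma smul_mono {a b : Mat n} (h : a ≤ b) {r : ℝ} (hr : 0 ≤ r) : r • a ≤ r • b := by
  have := smul_nn (sub_nonneg.mpr h) hr
  rw [smul_sub] at this
  exact sub_nonneg.mp this

lemma herm_of_nonneg {a : Mat n} (ha : 0 ≤ a) : aᴴ = a :=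
  (nonneg_iff_posSemidef.mp ha).isHermitian

lemma nsq_nonneg (x : Mat n) : 0 ≤ nsq x := tr_nonneg (star_mul_nonneg x)

lemma nsq_conj (x : Mat n) : nsq xᴴ = nsq x := by
  simp only [nsq, conjTranspose_conjTranspose]
  exact tr_comm _ _

lemma nsq_neg (x : Mat n) : nsq (-x) = nsq x := by
  simp [nsq]

lemma nsq_sub_comm (x y : Mat n) : nsq (x - y) = nsq (y - x) := by
  rw [← nsq_neg, neg_sub]

lemma tr_mul_nonneg {a b : Mat n} (ha : 0 ≤ a) (hb : 0 ≤ b) : 0 ≤ tr (a * b) := by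
  obtain ⟨c, hc⟩ := CStarAlgebra.nonneg_iff_eq_star_mul_self.mp ha
  have : tr (a * b) = tr (c * b * cᴴ) := by
    rw [hc, star_eq_conjTranspose, Matrix.mul_assoc, tr_comm]
  rw [this]
  exact tr_nonneg (conj_nonneg' hb c)

lemma tr_mul_mono {a b c : Mat n} (ha : 0 ≤ a) (h : b ≤ c) : tr (a * b) ≤ tr (a * c) := by
  have := tr_mul_nonneg ha (sub_nonneg.mpr h)
  rw [Matrix.mul_sub, tr_sub] at this
  linarith

lemma nsq_add (x y : Mat n) : nsq (x + y) = nsq x + nsq y + 2 * tr (xᴴ * y) := by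
  have h : tr (yᴴ * x) = tr (xᴴ * y) := by
    rw [← tr_conj]; simp
  simp only [nsq, conjTranspose_add, Matrix.add_mul, Matrix.mul_add, tr_add]
  linarith

lemma nsq_sub (x y : Mat n) : nsq (x - y) = nsq x + nsq y - 2 * tr (xᴴ * y) := by
  have h : tr (yᴴ * x) = tr (xᴴ * y) := by
    rw [← tr_conj]; simp
  simp only [nsq, conjTranspose_sub, Matrix.sub_mul, Matrix.mul_sub, tr_sub]
  linarith

lemma nsq_smul (r : ℝ) (x : Mat n) : nsq (r • x) = r ^ 2 * nsq x := by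
  simp only [nsq, conjTranspose_smul, star_trivial, Matrix.smul_mul, Matrix.mul_smul, tr_smul]
  ring

lemma two_tr_le (x y : Mat n) {t : ℝ} (ht : 0 < t) :
    2 * tr (xᴴ * y) ≤ t * nsq x + t⁻¹ * nsq y := by
  have h := nsq_nonneg (t • x - y)
  rw [nsq_sub, nsq_smul, conjTranspose_smul, star_trivial, Matrix.smul_mul, tr_smul] at h
  have h2 : 0 ≤ t⁻¹ * (t ^ 2 * nsq x + nsq y - 2 * (t * tr (xᴴ * y))) :=
    mul_nonneg (inv_nonneg.mpr ht.le) h
  have h3 : t⁻¹ * (t ^ 2 * nsq x + nsq y - 2 * (t * tr (xᴴ * y))) =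
      t * nsq x + t⁻¹ * nsq y - 2 * tr (xᴴ * y) := by
    field_simp
  linarith

lemma nsq_add_le (x y : Mat n) {t : ℝ} (ht : 0 < t) :
    nsq (x + y) ≤ (1 + t) * nsq x + (1 + t⁻¹) * nsq y := by
  rw [nsq_add]
  have := two_tr_le x y ht
  linarith

lemma nsq_add_le2 (x y : Mat n) : nsq (x + y) ≤ 2 * nsq x + 2 * nsq y := by
  have := nsq_add_le x y one_pos
  norm_num at this
  linarith

lemma nsq_mul_le_right (x : Mat n) {y : Mat n} (hy : y * yᴴ ≤ 1) : nsq (x * y) ≤ nsq x := by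
  have h1 : nsq (x * y) = tr ((xᴴ * x) * (y * yᴴ)) := by
    simp only [nsq, conjTranspose_mul]
    rw [Matrix.mul_assoc, tr_comm]
    simp only [Matrix.mul_assoc]
  rw [h1]
  have := tr_mul_mono (star_mul_nonneg x) hy
  rw [Matrix.mul_one] at this
  exact this

lemma nsq_mul_le_left (x : Mat n) {y : Mat n} (hy : yᴴ * y ≤ 1) : nsq (y * x) ≤ nsq x := by
  rw [← nsq_conj, conjTranspose_mul, ← nsq_conj x]
  apply nsq_mul_le_right
  simpa using hy

lemma proj_nonneg {p : Mat n} (hp : IsProj p) : 0 ≤ p := by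
  have := star_mul_nonneg p
  rwa [hp.1, hp.2] at this

lemma proj_compl {p : Mat n} (hp : IsProj p) : IsProj (1 - p) := by
  refine ⟨by simp [hp.1], ?_⟩
  simp [Matrix.sub_mul, Matrix.mul_sub, hp.2]

lemma proj_le_one {p : Mat n} (hp : IsProj p) : p ≤ 1 :=
  sub_nonneg.mp (proj_nonneg (proj_compl hp))

lemma nsq_proj {p : Mat n} (hp : IsProj p) : nsq p = tr p := by
  simp only [nsq, hp.1, hp.2]

lemma star_mul_le_one {z : Mat n} (h : z * zᴴ ≤ 1) : zᴴ * z ≤ 1 := by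
  have h1 := conj_mono h z
  have h2 := star_mul_nonneg (1 - zᴴ * z)
  have h3 : (1 : Mat n) - zᴴ * z = (1 - zᴴ * z)ᴴ * (1 - zᴴ * z) +
      (zᴴ * 1 * z - zᴴ * (z * zᴴ) * z) := by
    simp only [conjTranspose_sub, conjTranspose_one, conjTranspose_mul,
      conjTranspose_conjTranspose, Matrix.sub_mul, Matrix.mul_sub, Matrix.one_mul, Matrix.mul_one,
      Matrix.mul_assoc]
    abel
  rw [← sub_nonneg, h3]
  exact add_nonneg h2 (sub_nonneg.mpr h1)

lemma nsq_cm_star {u : Mat n} (hu : IsU u) (z : Mat n) : nsq (cm u zᴴ) ≤ nsq (cm u z) := by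
  have h : cm u zᴴ = u * ((cm u z)ᴴ * u) := by
    simp only [cm, conjTranspose_sub, conjTranspose_mul, Matrix.sub_mul, Matrix.mul_sub,
      Matrix.mul_assoc, hu.1, Matrix.mul_one]
    rw [← Matrix.mul_assoc u uᴴ, hu.2, Matrix.one_mul]
  rw [h]
  calc nsq (u * ((cm u z)ᴴ * u)) ≤ nsq ((cm u z)ᴴ * u) := nsq_mul_le_left _ hu.1.le
    _ ≤ nsq (cm u z)ᴴ := nsq_mul_le_right _ hu.2.le
    _ = nsq (cm u z) := nsq_conj _

end Pool.Agent.H602Z.NH
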